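import Pool.Agent.P.MP_7c5a52_nt.G.Main

open Polynomial Pool.Agent.P.MP_7c5a52_nt

namespace Pool.Agent.Results.MP_7c5a52_nt.AllQ

/-- Any `q`.  The rank is `r = s + 1`, either `r = 6` or any `r ≥ 3` not coprime to
`1 + q + ... + q^(r-1)`; the level is an irreducible `p` of degree `r`.  Here `F = k(T)`,
`E = F(j_2, ..., j_r)` and `Ω` is a separable closure of `E`.  The class group of `X_0^r(p)` has a
`G_F`-fixed torsion class outside the subgroup generated by the classes of all cusps, hence outside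
the cuspidal divisor group. -/
theorem result (k F E Ω : Type) [Field k] [Fintype k] [Field F] [Field E] [Field Ω]
    [Algebra k F] [Algebra F E] [Algebra E Ω] [Algebra k Ω] [Algebra F Ω]
    [IsScalarTower k F Ω] [IsScalarTower F E Ω] [IsSepClosure E Ω]
    (T : F) (hT : Transcendental k T) (_hF : IntermediateField.adjoin k {T} = ⊤)
    (s : ℕ) (j : Fin s → E) (hj : AlgebraicIndependent F j)
    (hE : IntermediateField.adjoin F (Set.range j) = ⊤)
    (hs : s + 1 = 6 ∨ (3 ≤ s + 1 ∧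
      ¬ Nat.Coprime (s + 1) (∑ i ∈ Finset.range (s + 1), Fintype.card k ^ i))) :
    (∃ p : k[X], Irreducible p ∧ p.natDegree = s + 1) ∧
    ∀ p : k[X], Irreducible p → p.natDegree = s + 1 →
      (∃ c : Ω, IsLevel k T j (Ideal.span {p}) c) ∧
      ∀ c : Ω, IsLevel k T j (Ideal.span {p}) c →
        ∃ x : Cl k T j c, IsOfFinAddOrder x ∧ IsRational k T j x ∧
          x ∉ AddSubgroup.closure (cuspClasses k T j c) ∧ x ∉ cuspGroup k T j c := by
  have := IsSepClosure.sep_closed E (K := Ω)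
  have : G.GenJ F j := ⟨hj, hE⟩
  have : G.GenT k T := ⟨hT⟩
  obtain ⟨h3, hm⟩ : 3 ≤ s + 1 ∧
      ¬ Nat.Coprime (s + 1) (∑ i ∈ Finset.range (s + 1), Fintype.card k ^ i) :=
    hs.elim (fun h => ⟨by omega, h ▸ G.six_card k⟩) id
  obtain ⟨s, rfl⟩ : ∃ n, s = n + 2 := ⟨s - 2, by omega⟩
  exact ⟨G.exists_irr k _, fun p hp hd => ⟨G.exists_level hp, fun _ hc => G.main hm hp hd hc⟩⟩

end Pool.Agent.Results.MP_7c5a52_nt.AllQ
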