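import Pool.Agent.P.MP_7c5a52_nt.N.Main

open Polynomial Pool.Agent.P.MP_7c5a52_nt

namespace Pool.Agent.Results.MP_7c5a52_nt.CartierForm

/-- Any `q`, any rank `r = s + 1 ≥ 3`, any level `n` with `0 < deg n ≤ r`.  Here `F = k(T)`,
`E = F(j_2, ..., j_r)` and `Ω` is a separable closure of `E`.  A `G_F`-fixed class in the class
group of `X_0^r(n)` lies in the subgroup generated by the classes of the cusps if and only if it is
locally principal on the open part `Y_0^r(n)`. -/
theorem result (k F E Ω : Type) [Field k] [Fintype k] [Field F] [Field E] [Field Ω]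
    [Algebra k F] [Algebra F E] [Algebra E Ω] [Algebra k Ω] [Algebra F Ω]
    [IsScalarTower k F Ω] [IsScalarTower F E Ω] [IsSepClosure E Ω]
    (T : F) (hT : Transcendental k T) (hF : IntermediateField.adjoin k {T} = ⊤)
    (s : ℕ) (j : Fin s → E) (hj : AlgebraicIndependent F j)
    (hE : IntermediateField.adjoin F (Set.range j) = ⊤) (hs : 3 ≤ s + 1)
    (n : k[X]) (hn : 0 < n.natDegree) (hd : n.natDegree ≤ s + 1) :
    (∃ c : Ω, IsLevel k T j (Ideal.span {n}) c) ∧
    ∀ c : Ω, IsLevel k T j (Ideal.span {n}) c → ∀ x : Cl k T j c, IsRational k T j x →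
      (x ∈ AddSubgroup.closure (cuspClasses k T j c) ↔
        LocPrin (chart k T j c (Fin.last s)) x) := by
  have := IsSepClosure.sep_closed E (K := Ω)
  have : G.GenJ F j := ⟨hj, hE⟩
  have : G.GenT k T := ⟨hT⟩
  obtain ⟨s, rfl⟩ : ∃ m, s = m + 2 := ⟨s - 2, by omega⟩
  exact ⟨N.exists_level (ne_zero_of_natDegree_gt hn), fun _ hc => (N.main hF hn hd hc rfl).2⟩

end Pool.Agent.Results.MP_7c5a52_nt.CartierForm
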