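import Pool.Agent.P.MP_7c5a52_nt.X.Main

open Polynomial Pool.Agent.P.MP_7c5a52_nt

namespace Pool.Agent.Results.MP_7c5a52_nt.ExactTorsion

/-- Any `q`, any rank `r = s + 1 ≥ 3`, any prime level `p` of degree `d ≤ r`.  Here `F = k(T)`,
`E = F(j_2, ..., j_r)` and `Ω` is a separable closure of `E`.  Put `e = gcd(r, d)` and
`u = gcd(e, 1 + q + ... + q^(e-1))`.  The `G_F`-fixed torsion of the class group of `X_0^r(p)` is
cyclic of order `u (q^d - 1)/(q^e - 1)`, and the part of it that lies in the subgroup generated by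
the classes of the cusps has index exactly `u`. -/
theorem result (k F E Ω : Type) [Field k] [Fintype k] [Field F] [Field E] [Field Ω]
    [Algebra k F] [Algebra F E] [Algebra E Ω] [Algebra k Ω] [Algebra F Ω]
    [IsScalarTower k F Ω] [IsScalarTower F E Ω] [IsSepClosure E Ω]
    (T : F) (hT : Transcendental k T) (hF : IntermediateField.adjoin k {T} = ⊤)
    (s : ℕ) (j : Fin s → E) (hj : AlgebraicIndependent F j)
    (hE : IntermediateField.adjoin F (Set.range j) = ⊤) (hs : 3 ≤ s + 1)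
    (p : k[X]) (hp : Irreducible p) (hd : p.natDegree ≤ s + 1)
    (e u : ℕ) (he : e = Nat.gcd (s + 1) p.natDegree)
    (hu : u = Nat.gcd e (∑ i ∈ Finset.range e, Fintype.card k ^ i)) :
    (∃ c : Ω, IsLevel k T j (Ideal.span {p}) c) ∧
    ∀ c : Ω, IsLevel k T j (Ideal.span {p}) c →
      ∃ x₀ : Cl k T j c,
        addOrderOf x₀ = (Fintype.card k ^ p.natDegree - 1) / (Fintype.card k ^ e - 1) * u ∧
        (∀ x : Cl k T j c, IsOfFinAddOrder x ∧ IsRational k T j x ↔
          x ∈ AddSubgroup.zmultiples x₀) ∧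
        ∀ m : ℤ, m • x₀ ∈ AddSubgroup.closure (cuspClasses k T j c) ↔ (u : ℤ) ∣ m := by
  have := IsSepClosure.sep_closed E (K := Ω)
  have : G.GenJ F j := ⟨hj, hE⟩
  have : G.GenT k T := ⟨hT⟩
  obtain ⟨s, rfl⟩ : ∃ n, s = n + 2 := ⟨s - 2, by omega⟩
  exact ⟨G.exists_level hp, fun _ hc => X.main hF hp hd hc he hu⟩

end Pool.Agent.Results.MP_7c5a52_nt.ExactTorsion
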